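import Mathlib

set_option autoImplicit false
open MeasureTheory Set
open scoped ENNReal Pointwise

namespace Pool.Agent.TH218.MQ

/-- one-dimensional Brunn-Minkowski for two compact sets -/
theorem bm_add {K L : Set ℝ} (hK : IsCompact K) (hL : IsCompact L)
    (hK' : K.Nonempty) (hL' : L.Nonempty) :
    volume K + volume L ≤ volume (K + L) := by
  obtain ⟨a, ha, hamax⟩ := hK.exists_isMaxOn hK' continuousOn_id
  obtain ⟨b, hb, hbmin⟩ := hL.exists_isMinOn hL' continuousOn_id
  have hamax' : ∀ x ∈ K, x ≤ a := fun x hx => hamax hx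
  have hbmin' : ∀ y ∈ L, b ≤ y := fun y hy => hbmin hy
  set S1 : Set ℝ := (fun x => x + b) '' K with hS1
  set S2 : Set ℝ := (fun y => a + y) '' L with hS2
  have hS1c : IsCompact S1 := hK.image (by fun_prop)
  have hS2c : IsCompact S2 := hL.image (by fun_prop)
  have h1 : S1 ∪ S2 ⊆ K + L := by
    rintro z (⟨x, hx, rfl⟩ | ⟨y, hy, rfl⟩)
    · exact Set.add_mem_add hx hb
    · exact Set.add_mem_add ha hy
  have hint : volume (S1 ∩ S2) = 0 := by
    refine measure_mono_null (t := {a + b}) ?_ (by simp)
    rintro z ⟨⟨x, hx, hxz⟩, ⟨y, hy, hyz⟩⟩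
    simp only at hxz hyz
    have e1 := hamax' x hx
    have e2 := hbmin' y hy
    simp only [mem_singleton_iff]
    linarith
  have hv1 : volume S1 = volume K := by rw [hS1]; simp
  have hv2 : volume S2 = volume L := by rw [hS2]; simp
  have hu : volume (S1 ∪ S2) + volume (S1 ∩ S2) = volume S1 + volume S2 :=
    measure_union_add_inter S1 hS2c.measurableSet
  rw [hint, add_zero] at hu
  rw [← hv1, ← hv2, ← hu]
  exact measure_mono h1

theorem bm_sum {ι : Type*} (s : Finset ι) (K : ι → Set ℝ) (hK : ∀ i ∈ s, IsCompact (K i))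
    (hK' : ∀ i ∈ s, (K i).Nonempty) :
    IsCompact (∑ i ∈ s, K i) ∧ (∑ i ∈ s, K i).Nonempty ∧
      ∑ i ∈ s, volume (K i) ≤ volume (∑ i ∈ s, K i) := by
  classical
  induction s using Finset.induction_on with
  | empty => simp
  | insert i s hi ih =>
    obtain ⟨h1, h2, h3⟩ := ih (fun j hj => hK j (Finset.mem_insert_of_mem hj))
      (fun j hj => hK' j (Finset.mem_insert_of_mem hj))
    have hKi := hK i (Finset.mem_insert_self i s)
    have hKi' := hK' i (Finset.mem_insert_self i s)
    rw [Finset.sum_insert hi, Finset.sum_insert hi]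
    refine ⟨hKi.add h1, hKi'.add h2, ?_⟩
    refine le_trans ?_ (bm_add hKi h1 hKi' h2)
    gcongr

/-- one-dimensional Brunn-Minkowski for finitely many measurable sets with weights -/
theorem bm_weights {ι : Type*} (s : Finset ι) (α : ι → ℝ) (hα : ∀ i ∈ s, 0 < α i)
    (A : ι → Set ℝ) (hA : ∀ i ∈ s, MeasurableSet (A i)) (hA' : ∀ i ∈ s, (A i).Nonempty)
    (C : Set ℝ) (hC : ∀ x : ι → ℝ, (∀ i ∈ s, x i ∈ A i) → ∑ i ∈ s, α i * x i ∈ C) :
    ∑ i ∈ s, ENNReal.ofReal (α i) * volume (A i) ≤ volume C := by
  classical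
  -- the compact version
  have key : ∀ K : ι → Set ℝ, (∀ i ∈ s, IsCompact (K i)) → (∀ i ∈ s, K i ⊆ A i) →
      ∑ i ∈ s, ENNReal.ofReal (α i) * volume (K i) ≤ volume C := by
    intro K hK hKA
    choose! a ha using hA'
    set K' : ι → Set ℝ := fun i => insert (a i) (K i) with hK'
    have hc : ∀ i ∈ s, IsCompact (α i • K' i) := fun i hi => ((hK i hi).insert (a i)).smul (α i)
    have hn : ∀ i ∈ s, (α i • K' i).Nonempty := fun i hi => (Set.insert_nonempty _ _).smul_set
    obtain ⟨-, -, h3⟩ := bm_sum s (fun i => α i • K' i) hc hn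
    have h4 : ∑ i ∈ s, ENNReal.ofReal (α i) * volume (K i) ≤
        ∑ i ∈ s, volume (α i • K' i) := by
      refine Finset.sum_le_sum fun i hi => ?_
      rw [Measure.addHaar_smul]
      simp only [Module.finrank_self, pow_one, abs_of_pos (hα i hi)]
      gcongr
      exact Set.subset_insert _ _
    refine h4.trans (h3.trans (measure_mono ?_))
    intro z hz
    rw [Set.mem_finsetSum] at hz
    obtain ⟨g, hg, rfl⟩ := hz
    have h5 : ∀ i ∈ s, ∃ x ∈ K' i, α i * x = g i := by
      intro i hi
      have := hg hi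
      rw [Set.mem_smul_set] at this
      obtain ⟨x, hx, hx2⟩ := this
      exact ⟨x, hx, hx2⟩
    choose! x hx hx2 using h5
    have h6 : ∑ i ∈ s, g i = ∑ i ∈ s, α i * x i :=
      Finset.sum_congr rfl fun i hi => (hx2 i hi).symm
    rw [h6]
    refine hC x fun i hi => ?_
    rcases hx i hi with h | h
    · rw [h]; exact ha i hi
    · exact hKA i hi h
  by_cases htop : ∃ i ∈ s, volume (A i) = ⊤
  · obtain ⟨i, hi, hiA⟩ := htop
    have hVtop : volume C = ⊤ := by
      by_contra hne
      have hαi : ENNReal.ofReal (α i) ≠ 0 := by simpa using hα i hi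
      have hlt : volume C / ENNReal.ofReal (α i) < volume (A i) := by
        rw [hiA]
        exact ENNReal.div_lt_top hne hαi
      rw [(hA i hi).measure_eq_iSup_isCompact] at hlt
      simp only [lt_iSup_iff] at hlt
      obtain ⟨K, hKA, hK, hlt⟩ := hlt
      have h1 := key (fun j => if j = i then K else ∅) (fun j _ => by
        by_cases h : j = i
        · simp [h, hK]
        · simp [h]) (fun j _ => by
        by_cases h : j = i
        · subst h; simpa using hKA
        · simp [h])
      have h2 : ENNReal.ofReal (α i) * volume K ≤ volume C := by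
        refine le_trans ?_ h1
        refine le_trans (le_of_eq ?_) (Finset.single_le_sum (f := fun j =>
          ENNReal.ofReal (α j) * volume (if j = i then K else ∅)) (fun _ _ => zero_le) hi)
        simp
      have h3 : volume K ≤ volume C / ENNReal.ofReal (α i) := by
        rw [ENNReal.le_div_iff_mul_le (Or.inl hαi) (Or.inl ENNReal.ofReal_ne_top), mul_comm]
        exact h2
      exact absurd hlt (not_lt.2 h3)
    rw [hVtop]; exact le_top
  · push Not at htop
    refine ENNReal.le_of_forall_pos_le_add fun ε hε _ => ?_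
    set S : ℝ := ∑ i ∈ s, α i with hS
    have hS0 : 0 ≤ S := Finset.sum_nonneg fun i hi => (hα i hi).le
    set δ : ℝ≥0∞ := ε / (ENNReal.ofReal S + 1) with hδ
    have hden : ENNReal.ofReal S + 1 ≠ 0 := by positivity
    have hden2 : ENNReal.ofReal S + 1 ≠ ⊤ := by simp
    have hδ0 : δ ≠ 0 := by
      rw [hδ]
      simp only [ne_eq, ENNReal.div_eq_zero_iff, ENNReal.coe_eq_zero, not_or]
      exact ⟨hε.ne', hden2⟩
    have hch : ∀ i ∈ s, ∃ K ⊆ A i, IsCompact K ∧ volume (A i) < volume K + δ := fun i hi =>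
      (hA i hi).exists_isCompact_lt_add (htop i hi) hδ0
    choose! K hKA hK hlt using hch
    have h1 := key K hK hKA
    calc ∑ i ∈ s, ENNReal.ofReal (α i) * volume (A i)
        ≤ ∑ i ∈ s, (ENNReal.ofReal (α i) * volume (K i) + ENNReal.ofReal (α i) * δ) := by
          refine Finset.sum_le_sum fun i hi => ?_
          rw [← mul_add]
          gcongr
          exact (hlt i hi).le
      _ = ∑ i ∈ s, ENNReal.ofReal (α i) * volume (K i) + ENNReal.ofReal S * δ := by
          rw [Finset.sum_add_distrib, ← Finset.sum_mul, hS,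
            ENNReal.ofReal_sum_of_nonneg fun i hi => (hα i hi).le]
      _ ≤ volume C + ε := by
          gcongr
          rw [hδ]
          calc ENNReal.ofReal S * (ε / (ENNReal.ofReal S + 1))
              ≤ (ENNReal.ofReal S + 1) * (ε / (ENNReal.ofReal S + 1)) := by
                gcongr; exact le_self_add
            _ = ε := ENNReal.mul_div_cancel hden hden2

end Pool.Agent.TH218.MQ
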