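import Mathlib
import Pool.Agent.TH218.MQ.BM

set_option autoImplicit false
open MeasureTheory Set Filter Topology
open scoped ENNReal

namespace Pool.Agent.TH218.MQ

/-- weighted AM-GM in `ℝ≥0∞` -/
theorem amgm {ι : Type*} (s : Finset ι) (α : ι → ℝ) (hα : ∀ i ∈ s, 0 < α i)
    (hs : ∑ i ∈ s, α i = 1) (a : ι → ℝ≥0∞) :
    ∏ i ∈ s, a i ^ α i ≤ ∑ i ∈ s, ENNReal.ofReal (α i) * a i := by
  classical
  by_cases htop : ∃ i ∈ s, a i = ⊤
  · obtain ⟨i, hi, hia⟩ := htop
    have : ENNReal.ofReal (α i) * a i ≤ ∑ i ∈ s, ENNReal.ofReal (α i) * a i :=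
      Finset.single_le_sum (f := fun j => ENNReal.ofReal (α j) * a j) (fun _ _ => zero_le) hi
    rw [hia, ENNReal.mul_top (by simpa using hα i hi), top_le_iff] at this
    rw [this]; exact le_top
  · push Not at htop
    have h1 := Real.geom_mean_le_arith_mean_weighted s α (fun i => (a i).toReal)
      (fun i hi => (hα i hi).le) hs (fun i _ => ENNReal.toReal_nonneg)
    have h2 : ∏ i ∈ s, a i ^ α i = ENNReal.ofReal (∏ i ∈ s, (a i).toReal ^ α i) := by
      rw [ENNReal.ofReal_prod_of_nonneg fun i _ => Real.rpow_nonneg ENNReal.toReal_nonneg _]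
      refine Finset.prod_congr rfl fun i hi => ?_
      rw [ENNReal.toReal_rpow, ENNReal.ofReal_toReal]
      exact ENNReal.rpow_ne_top_of_nonneg (hα i hi).le (htop i hi)
    have h3 : ∑ i ∈ s, ENNReal.ofReal (α i) * a i =
        ENNReal.ofReal (∑ i ∈ s, α i * (a i).toReal) := by
      rw [ENNReal.ofReal_sum_of_nonneg fun i hi => mul_nonneg (hα i hi).le ENNReal.toReal_nonneg]
      refine Finset.sum_congr rfl fun i hi => ?_
      rw [ENNReal.ofReal_mul (hα i hi).le, ENNReal.ofReal_toReal (htop i hi)]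
    rw [h2, h3]
    exact ENNReal.ofReal_le_ofReal h1

theorem meas_anti (f : ℝ → ℝ) : Measurable fun t : ℝ => volume {x | t < f x} :=
  Antitone.measurable fun _ _ hst => measure_mono fun _ hx => lt_of_le_of_lt hst hx

theorem pl_norm {ι : Type*} (s : Finset ι) (α : ι → ℝ) (hα : ∀ i ∈ s, 0 < α i)
    (hs : ∑ i ∈ s, α i = 1) (f : ι → ℝ → ℝ) (h : ℝ → ℝ)
    (hf : ∀ i ∈ s, Measurable (f i)) (hh : Measurable h)
    (f0 : ∀ i ∈ s, ∀ x, 0 ≤ f i x) (f1 : ∀ i ∈ s, ∀ x, f i x ≤ 1)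
    (fs : ∀ i ∈ s, ∀ t < 1, ∃ x, t < f i x) (h0 : ∀ x, 0 ≤ h x)
    (H : ∀ x : ι → ℝ, ∏ i ∈ s, f i (x i) ^ α i ≤ h (∑ i ∈ s, α i * x i)) :
    ∑ i ∈ s, ENNReal.ofReal (α i) * ∫⁻ x, ENNReal.ofReal (f i x) ≤ ∫⁻ x, ENNReal.ofReal (h x) := by
  classical
  have hne : s.Nonempty := by
    by_contra hcon
    rw [Finset.not_nonempty_iff_eq_empty] at hcon
    rw [hcon] at hs; simp at hs
  rw [lintegral_eq_lintegral_meas_lt volume (Filter.Eventually.of_forall h0) hh.aemeasurable]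
  have e1 : ∀ i ∈ s, ENNReal.ofReal (α i) * ∫⁻ x, ENNReal.ofReal (f i x) =
      ∫⁻ t in Ioi (0 : ℝ), ENNReal.ofReal (α i) * volume {x | t < f i x} := by
    intro i hi
    rw [lintegral_eq_lintegral_meas_lt volume (Filter.Eventually.of_forall (f0 i hi))
      (hf i hi).aemeasurable, lintegral_const_mul _ (meas_anti _)]
  rw [Finset.sum_congr rfl e1, ← lintegral_finsetSum' _ fun i _ =>
    ((meas_anti _).const_mul _).aemeasurable]
  refine setLIntegral_mono' measurableSet_Ioi fun t ht => ?_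
  have ht0 : 0 < t := ht
  rcases lt_or_ge t 1 with ht1 | ht1
  · refine bm_weights s α hα (fun i => {x | t < f i x})
      (fun i hi => measurableSet_lt measurable_const (hf i hi)) (fun i hi => fs i hi t ht1) _ ?_
    intro x hx
    refine lt_of_lt_of_le ?_ (H x)
    have e2 : t = ∏ i ∈ s, t ^ α i := by
      rw [← Real.rpow_sum_of_pos ht0, hs, Real.rpow_one]
    rw [e2]
    refine Finset.prod_lt_prod_of_nonempty (fun i hi => Real.rpow_pos_of_pos ht0 _)
      (fun i hi => ?_) hne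
    exact Real.rpow_lt_rpow ht0.le (hx i hi) (hα i hi)
  · refine le_trans (le_of_eq ?_) (zero_le)
    refine Finset.sum_eq_zero fun i hi => ?_
    have : {x | t < f i x} = ∅ := by
      ext x
      simp only [mem_ofPred_eq, mem_empty_iff_false, iff_false, not_lt]
      exact (f1 i hi x).trans ht1
    rw [this]; simp

theorem prod_div {ι : Type*} (s : Finset ι) (α : ι → ℝ) (hα : ∀ i ∈ s, 0 < α i)
    (M a : ι → ℝ≥0∞) (hM0 : ∀ i ∈ s, M i ≠ 0) (hMt : ∀ i ∈ s, M i ≠ ⊤)
    (hB0 : ∏ i ∈ s, M i ^ α i ≠ 0) (hBt : ∏ i ∈ s, M i ^ α i ≠ ⊤) :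
    ∏ i ∈ s, (a i / M i) ^ α i = (∏ i ∈ s, a i ^ α i) / ∏ i ∈ s, M i ^ α i := by
  rw [ENNReal.eq_div_iff hB0 hBt, ← Finset.prod_mul_distrib]
  refine Finset.prod_congr rfl fun i hi => ?_
  rw [← ENNReal.mul_rpow_of_nonneg _ _ (hα i hi).le, mul_comm, ENNReal.div_mul_cancel (hM0 i hi) (hMt i hi)]

/-- bounded case -/
theorem pl_bdd {ι : Type*} (s : Finset ι) (α : ι → ℝ) (hα : ∀ i ∈ s, 0 < α i)
    (hs : ∑ i ∈ s, α i = 1) (f : ι → ℝ → ℝ≥0∞) (h : ℝ → ℝ≥0∞)
    (hf : ∀ i ∈ s, Measurable (f i)) (hh : Measurable h)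
    (N : ℝ≥0∞) (hN : N ≠ ⊤) (fN : ∀ i ∈ s, ∀ x, f i x ≤ N)
    (H : ∀ x : ι → ℝ, ∏ i ∈ s, f i (x i) ^ α i ≤ h (∑ i ∈ s, α i * x i)) :
    ∏ i ∈ s, (∫⁻ x, f i x) ^ α i ≤ ∫⁻ x, h x := by
  classical
  by_cases h0 : ∃ i ∈ s, (⨆ x, f i x) = 0
  · obtain ⟨i, hi, hi0⟩ := h0
    have : ∀ x, f i x = 0 := by simpa using hi0
    refine le_trans (le_of_eq ?_) zero_le
    refine Finset.prod_eq_zero hi ?_
    simp [this, hα i hi]
  · push Not at h0
    set M : ι → ℝ≥0∞ := fun i => ⨆ x, f i x with hM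
    have hM0 : ∀ i ∈ s, M i ≠ 0 := h0
    have hMt : ∀ i ∈ s, M i ≠ ⊤ := fun i hi => ne_top_of_le_ne_top hN (iSup_le (fN i hi))
    have hfM : ∀ i ∈ s, ∀ x, f i x ≤ M i := fun i _ x => le_iSup (f i) x
    set B : ℝ≥0∞ := ∏ i ∈ s, M i ^ α i with hB
    have hB0 : B ≠ 0 := by
      rw [hB, Finset.prod_ne_zero_iff]
      intro i hi
      simp only [ne_eq, ENNReal.rpow_eq_zero_iff, not_or, not_and, not_lt]
      exact ⟨fun h => absurd h (hM0 i hi), fun _ => (hα i hi).le⟩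
    have hBt : B ≠ ⊤ := by
      rw [hB]
      refine (ENNReal.prod_lt_top fun i hi => ?_).ne
      exact (ENNReal.rpow_ne_top_of_nonneg (hα i hi).le (hMt i hi)).lt_top
    set u : ι → ℝ → ℝ := fun i x => (f i x / M i).toReal with hu
    set v : ℝ → ℝ := fun x => (min (h x) B / B).toReal with hv
    have hfdiv : ∀ i ∈ s, ∀ x, f i x / M i ≤ 1 := fun i hi x =>
      ENNReal.div_le_of_le_mul (by rw [one_mul]; exact hfM i hi x)
    have hfdt : ∀ i ∈ s, ∀ x, f i x / M i ≠ ⊤ := fun i hi x =>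
      ne_top_of_le_ne_top ENNReal.one_ne_top (hfdiv i hi x)
    have hvd : ∀ x, min (h x) B / B ≤ 1 := fun x =>
      ENNReal.div_le_of_le_mul (by rw [one_mul]; exact min_le_right _ _)
    have hvt : ∀ x, min (h x) B / B ≠ ⊤ := fun x =>
      ne_top_of_le_ne_top ENNReal.one_ne_top (hvd x)
    have h1 := pl_norm s α hα hs u v
      (fun i hi => ((hf i hi).div_const _).ennreal_toReal)
      ((hh.min measurable_const).div_const _).ennreal_toReal
      (fun i hi x => ENNReal.toReal_nonneg)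
      (fun i hi x => by
        have := ENNReal.toReal_mono ENNReal.one_ne_top (hfdiv i hi x)
        rwa [ENNReal.toReal_one] at this)
      (fun i hi t ht => by
        rcases lt_or_ge t 0 with ht0 | ht0
        · exact ⟨0, lt_of_lt_of_le ht0 ENNReal.toReal_nonneg⟩
        · have h2 : ENNReal.ofReal t * M i < M i := by
            have h3 : ENNReal.ofReal t < 1 := by
              rw [← ENNReal.ofReal_one]
              exact (ENNReal.ofReal_lt_ofReal_iff one_pos).2 ht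
            calc ENNReal.ofReal t * M i < 1 * M i :=
                  (ENNReal.mul_lt_mul_iff_left (hM0 i hi) (hMt i hi)).2 h3
              _ = M i := one_mul _
          obtain ⟨x, hx⟩ := lt_iSup_iff.1 h2
          refine ⟨x, ?_⟩
          have h4 : ENNReal.ofReal t < f i x / M i := by
            rw [ENNReal.lt_div_iff_mul_lt (Or.inl (hM0 i hi)) (Or.inl (hMt i hi))]
            exact hx
          rw [hu]
          exact (ENNReal.ofReal_lt_iff_lt_toReal ht0 (hfdt i hi x)).1 h4)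
      (fun x => ENNReal.toReal_nonneg)
      (fun x => by
        have h2 : ∏ i ∈ s, (f i (x i) / M i) ^ α i ≤ min (h (∑ i ∈ s, α i * x i)) B / B := by
          have h3 : ∏ i ∈ s, (f i (x i) / M i) ^ α i = (∏ i ∈ s, f i (x i) ^ α i) / B :=
            prod_div s α hα M (fun i => f i (x i)) hM0 hMt hB0 hBt
          rw [h3]
          gcongr
          refine le_min (H x) ?_
          exact Finset.prod_le_prod' fun i hi =>
            ENNReal.rpow_le_rpow (hfM i hi _) (hα i hi).le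
        have h4 := ENNReal.toReal_mono (hvt _) h2
        refine le_trans (le_of_eq ?_) h4
        rw [ENNReal.toReal_prod]
        refine Finset.prod_congr rfl fun i hi => ?_
        rw [hu, ENNReal.toReal_rpow])
    have e1 : ∀ i ∈ s, ∫⁻ x, ENNReal.ofReal (u i x) = (∫⁻ x, f i x) / M i := by
      intro i hi
      rw [div_eq_mul_inv, ← lintegral_mul_const _ (hf i hi)]
      refine lintegral_congr fun x => ?_
      rw [hu, ENNReal.ofReal_toReal (hfdt i hi x), div_eq_mul_inv]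
    have e2 : ∫⁻ x, ENNReal.ofReal (v x) = (∫⁻ x, min (h x) B) / B := by
      rw [div_eq_mul_inv, ← lintegral_mul_const _ (hh.min measurable_const)]
      refine lintegral_congr fun x => ?_
      rw [hv, ENNReal.ofReal_toReal (hvt x), div_eq_mul_inv]
    rw [e2] at h1
    have h5 := amgm s α hα hs (fun i => (∫⁻ x, f i x) / M i)
    have h6 : ∏ i ∈ s, ((∫⁻ x, f i x) / M i) ^ α i ≤ (∫⁻ x, min (h x) B) / B := by
      refine h5.trans (le_trans (le_of_eq ?_) h1)
      exact Finset.sum_congr rfl fun i hi => by rw [e1 i hi]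
    have h7 : ∏ i ∈ s, ((∫⁻ x, f i x) / M i) ^ α i = (∏ i ∈ s, (∫⁻ x, f i x) ^ α i) / B :=
      prod_div s α hα M (fun i => ∫⁻ x, f i x) hM0 hMt hB0 hBt
    rw [h7] at h6
    have h8 : ∏ i ∈ s, (∫⁻ x, f i x) ^ α i ≤ ∫⁻ x, min (h x) B := by
      have h9 := mul_le_mul_left h6 B
      rwa [ENNReal.div_mul_cancel hB0 hBt, ENNReal.div_mul_cancel hB0 hBt] at h9
    exact h8.trans (lintegral_mono fun x => min_le_left _ _)

end Pool.Agent.TH218.MQ
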