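import Mathlib
import Pool.Agent.TH218.MQ.PL

set_option autoImplicit false
open MeasureTheory Set Filter Topology
open scoped ENNReal

namespace Pool.Agent.TH218.MQ

theorem tendsto_prod {ι : Type*} (s : Finset ι) (a : ι → ℕ → ℝ≥0∞) (b : ι → ℝ≥0∞)
    (hb : ∀ i ∈ s, b i ≠ 0) (h : ∀ i ∈ s, Tendsto (a i) atTop (𝓝 (b i))) :
    ∏ i ∈ s, b i ≠ 0 ∧ Tendsto (fun n => ∏ i ∈ s, a i n) atTop (𝓝 (∏ i ∈ s, b i)) := by
  classical
  induction s using Finset.induction_on with
  | empty => simp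
  | insert i s hi ih =>
    obtain ⟨h1, h2⟩ := ih (fun j hj => hb j (Finset.mem_insert_of_mem hj))
      (fun j hj => h j (Finset.mem_insert_of_mem hj))
    have hbi := hb i (Finset.mem_insert_self i s)
    have hi2 := h i (Finset.mem_insert_self i s)
    simp only [Finset.prod_insert hi]
    exact ⟨mul_ne_zero hbi h1, ENNReal.Tendsto.mul hi2 (Or.inl hbi) h2 (Or.inl h1)⟩

/-- Prekopa-Leindler in dimension one for finitely many functions, positive weights -/
theorem pl_pos {ι : Type*} (s : Finset ι) (α : ι → ℝ) (hα : ∀ i ∈ s, 0 < α i)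
    (hs : ∑ i ∈ s, α i = 1) (f : ι → ℝ → ℝ≥0∞) (h : ℝ → ℝ≥0∞)
    (hf : ∀ i ∈ s, Measurable (f i)) (hh : Measurable h)
    (H : ∀ x : ι → ℝ, ∏ i ∈ s, f i (x i) ^ α i ≤ h (∑ i ∈ s, α i * x i)) :
    ∏ i ∈ s, (∫⁻ x, f i x) ^ α i ≤ ∫⁻ x, h x := by
  classical
  by_cases h0 : ∃ i ∈ s, ∫⁻ x, f i x = 0
  · obtain ⟨i, hi, hi0⟩ := h0
    refine le_trans (le_of_eq ?_) zero_le
    refine Finset.prod_eq_zero hi ?_
    simp [hi0, hα i hi]
  · push Not at h0
    have e1 : ∀ i ∈ s, Tendsto (fun n : ℕ => (∫⁻ x, min (f i x) (n : ℝ≥0∞)) ^ α i) atTop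
        (𝓝 ((∫⁻ x, f i x) ^ α i)) := by
      intro i hi
      refine (ENNReal.continuous_rpow_const.tendsto _).comp ?_
      refine lintegral_tendsto_of_tendsto_of_monotone
        (fun n => ((hf i hi).min measurable_const).aemeasurable)
        (Eventually.of_forall fun x n m hnm => min_le_min le_rfl (by exact_mod_cast hnm)) (Eventually.of_forall fun x => ?_)
      rcases eq_or_ne (f i x) ⊤ with hx | hx
      · simp only [hx, le_top, inf_of_le_right]
        exact ENNReal.tendsto_nat_nhds_top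
      · obtain ⟨n, hn⟩ := ENNReal.exists_nat_gt hx
        refine tendsto_atTop_of_eventually_const (i₀ := n) fun m hm => ?_
        refine min_eq_left (hn.le.trans ?_)
        exact_mod_cast hm
    have e2 : ∀ i ∈ s, (∫⁻ x, f i x) ^ α i ≠ 0 := by
      intro i hi
      simp only [ne_eq, ENNReal.rpow_eq_zero_iff, not_or, not_and, not_lt]
      exact ⟨fun h => absurd h (h0 i hi), fun _ => (hα i hi).le⟩
    have e3 := (tendsto_prod s _ _ e2 e1).2
    refine le_of_tendsto' e3 fun n => ?_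
    refine pl_bdd s α hα hs (fun i x => min (f i x) (n : ℝ≥0∞)) h
      (fun i hi => (hf i hi).min measurable_const) hh n (by simp) (fun i hi x => min_le_right _ _)
      fun x => ?_
    refine le_trans ?_ (H x)
    exact Finset.prod_le_prod' fun i hi => ENNReal.rpow_le_rpow (min_le_left _ _) (hα i hi).le

/-- nonnegative weights, half line -/
theorem pl_half {ι : Type*} (s : Finset ι) (α : ι → ℝ) (hα : ∀ i ∈ s, 0 ≤ α i)
    (hs : ∑ i ∈ s, α i = 1) (f : ι → ℝ → ℝ≥0∞) (h : ℝ → ℝ≥0∞)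
    (hf : ∀ i ∈ s, Measurable (f i)) (hh : Measurable h)
    (H : ∀ x : ι → ℝ, (∀ i, 0 < x i) → ∏ i ∈ s, f i (x i) ^ α i ≤ h (∑ i ∈ s, α i * x i)) :
    ∏ i ∈ s, (∫⁻ x in Ioi (0 : ℝ), f i x) ^ α i ≤ ∫⁻ x in Ioi (0 : ℝ), h x := by
  classical
  set s' := s.filter fun i => 0 < α i with hs'
  have hz : ∀ i ∈ s, i ∉ s' → α i = 0 := by
    intro i hi hi'
    rw [hs', Finset.mem_filter, not_and] at hi'
    exact le_antisymm (not_lt.1 (hi' hi)) (hα i hi)
  have hsub : s' ⊆ s := Finset.filter_subset _ _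
  have hsum : ∑ i ∈ s', α i = 1 := by
    rw [← hs]
    exact Finset.sum_subset hsub hz
  have e1 : ∏ i ∈ s, (∫⁻ x in Ioi (0 : ℝ), f i x) ^ α i =
      ∏ i ∈ s', (∫⁻ x in Ioi (0 : ℝ), f i x) ^ α i := by
    symm
    refine Finset.prod_subset hsub fun i hi hi' => ?_
    rw [hz i hi hi', ENNReal.rpow_zero]
  rw [e1]
  have e2 : ∀ g : ℝ → ℝ≥0∞, ∫⁻ x in Ioi (0 : ℝ), g x = ∫⁻ x, (Ioi (0 : ℝ)).indicator g x :=
    fun g => (lintegral_indicator measurableSet_Ioi g).symm
  simp only [e2]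
  refine pl_pos s' α (fun i hi => (Finset.mem_filter.1 hi).2) hsum _ _
    (fun i hi => (hf i (hsub hi)).indicator measurableSet_Ioi) (hh.indicator measurableSet_Ioi) ?_
  intro x
  by_cases hx : ∀ i ∈ s', 0 < x i
  · have hne : s'.Nonempty := by
      by_contra hcon
      rw [Finset.not_nonempty_iff_eq_empty] at hcon
      rw [hcon] at hsum; simp at hsum
    have hpos : 0 < ∑ i ∈ s', α i * x i :=
      Finset.sum_pos (fun i hi => mul_pos (Finset.mem_filter.1 hi).2 (hx i hi)) hne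
    rw [Set.indicator_of_mem (show _ ∈ Ioi (0 : ℝ) from hpos)]
    have h1 := H (fun i => if i ∈ s' then x i else 1) (fun i => by
      by_cases hi : i ∈ s'
      · simpa [hi] using hx i hi
      · simp [hi])
    have h2 : ∏ i ∈ s, f i (if i ∈ s' then x i else 1) ^ α i =
        ∏ i ∈ s', (Ioi (0 : ℝ)).indicator (f i) (x i) ^ α i := by
      symm
      rw [← Finset.prod_subset hsub (f := fun i => f i (if i ∈ s' then x i else 1) ^ α i)
        fun i hi hi' => by rw [hz i hi hi', ENNReal.rpow_zero]]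
      refine Finset.prod_congr rfl fun i hi => ?_
      rw [Set.indicator_of_mem (show x i ∈ Ioi (0 : ℝ) from hx i hi), if_pos hi]
    have h3 : ∑ i ∈ s, α i * (if i ∈ s' then x i else 1) = ∑ i ∈ s', α i * x i := by
      symm
      rw [← Finset.sum_subset hsub (f := fun i => α i * (if i ∈ s' then x i else 1))
        fun i hi hi' => by rw [hz i hi hi', zero_mul]]
      refine Finset.sum_congr rfl fun i hi => ?_
      rw [if_pos hi]
    rw [h2, h3] at h1
    exact h1
  · push Not at hx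
    obtain ⟨i, hi, hxi⟩ := hx
    refine le_trans (le_of_eq ?_) zero_le
    refine Finset.prod_eq_zero hi ?_
    rw [Set.indicator_of_notMem (by simpa using hxi)]
    exact ENNReal.zero_rpow_of_pos (Finset.mem_filter.1 hi).2

/-- Hoelder step: `∫ e^{-t} a(t) ≤ (1-p)^{1-p} (∫ a^{1/p})^p` on the half line -/
theorem holder_exp (p : ℝ) (hp : 0 < p) (hp1 : p < 1) (a : ℝ → ℝ≥0∞) (ha : Measurable a) :
    ∫⁻ t in Ioi (0 : ℝ), ENNReal.ofReal (Real.exp (-t)) * a t ≤
      ENNReal.ofReal ((1 - p) ^ (1 - p)) * (∫⁻ t in Ioi (0 : ℝ), a t ^ (1 / p)) ^ p := by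
  have h1p : 0 < 1 - p := by linarith
  have hpq : (1 / (1 - p)).HolderConjugate (1 / p) := by
    rw [Real.holderConjugate_iff]
    refine ⟨?_, by simp⟩
    rw [lt_div_iff₀ h1p]; linarith
  have h := ENNReal.lintegral_mul_le_Lp_mul_Lq (volume.restrict (Ioi (0 : ℝ))) hpq
    (f := fun t => ENNReal.ofReal (Real.exp (-t))) (g := a) (by fun_prop) ha.aemeasurable
  refine h.trans (le_of_eq ?_)
  have e1 : ∫⁻ t in Ioi (0 : ℝ), ENNReal.ofReal (Real.exp (-t)) ^ (1 / (1 - p)) =
      ENNReal.ofReal (1 - p) := by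
    have e2 : ∀ t : ℝ, ENNReal.ofReal (Real.exp (-t)) ^ (1 / (1 - p)) =
        ENNReal.ofReal (Real.exp (-(1 / (1 - p)) * t)) := by
      intro t
      rw [ENNReal.ofReal_rpow_of_pos (Real.exp_pos _), ← Real.exp_mul]
      congr 2; ring
    simp only [e2]
    rw [← ofReal_integral_eq_lintegral_ofReal]
    · have := integral_exp_mul_Ioi (a := -(1 / (1 - p))) (by
        rw [neg_lt_zero]; positivity) 0
      rw [this]
      congr 1
      field_simp
      simp
    · exact integrableOn_exp_mul_Ioi (by rw [neg_lt_zero]; positivity) 0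
    · exact Eventually.of_forall fun t => (Real.exp_pos _).le
  rw [e1]
  congr 1
  · rw [one_div_one_div, ENNReal.ofReal_rpow_of_pos h1p]
  · rw [one_div_one_div]

end Pool.Agent.TH218.MQ
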