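import Mathlib
import Pool.Agent.TH218.MQ.PL2

set_option autoImplicit false
open MeasureTheory Set Filter Topology
open scoped ENNReal

namespace Pool.Agent.TH218.MQ

theorem scale_Ioi (p : ℝ) (hp : 0 < p) (g : ℝ → ℝ≥0∞) (hg : Measurable g) :
    ∫⁻ t in Ioi (0 : ℝ), g (p * t) = ENNReal.ofReal p⁻¹ * ∫⁻ t in Ioi (0 : ℝ), g t := by
  have e1 : ∫⁻ t in Ioi (0 : ℝ), g (p * t) = ∫⁻ t, (Ioi (0 : ℝ)).indicator g (p * t) := by
    rw [← lintegral_indicator measurableSet_Ioi]
    refine lintegral_congr fun t => ?_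
    by_cases ht : 0 < t
    · rw [indicator_of_mem (show t ∈ Ioi (0 : ℝ) from ht),
        indicator_of_mem (show p * t ∈ Ioi (0 : ℝ) from mul_pos hp ht)]
    · rw [indicator_of_notMem (show t ∉ Ioi (0 : ℝ) from ht), indicator_of_notMem]
      intro h
      exact ht (pos_of_mul_pos_right (show 0 < p * t from h) hp.le)
  have hgi : Measurable ((Ioi (0 : ℝ)).indicator g) := hg.indicator measurableSet_Ioi
  have e2 : ∫⁻ t, (Ioi (0 : ℝ)).indicator g (p * t) =
      ∫⁻ y, (Ioi (0 : ℝ)).indicator g y ∂(Measure.map (p * ·) volume) := by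
    rw [lintegral_map hgi (by fun_prop)]
  rw [e1, e2, Real.map_volume_mul_left hp.ne', lintegral_smul_measure,
    lintegral_indicator measurableSet_Ioi, abs_of_pos (inv_pos.2 hp), smul_eq_mul]

/-- the one dimensional step -/
theorem step1 {ι : Type*} (s : Finset ι) (w : ι → ℝ) (hw : ∀ i ∈ s, 0 ≤ w i)
    (p : ℝ) (hp : 0 < p) (hp1 : p < 1) (P : ℝ) (hP : P = p + ∑ i ∈ s, w i)
    (a : ℝ → ℝ≥0∞) (ha : Measurable a) (f : ι → ℝ → ℝ≥0∞) (hf : ∀ i ∈ s, Measurable (f i))
    (G : ℝ → ℝ≥0∞) (hG : Measurable G) (K : ℝ≥0∞)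
    (H : ∀ (t : ℝ) (y : ι → ℝ), 0 < t → (∀ i, 0 < y i) →
      a t * ∏ i ∈ s, f i (y i) ^ w i ≤ K * G ((t + ∑ i ∈ s, w i * y i) / P) ^ P) :
    (∫⁻ t in Ioi (0 : ℝ), ENNReal.ofReal (Real.exp (-t)) * a t) *
        ∏ i ∈ s, (∫⁻ y in Ioi (0 : ℝ), f i y) ^ w i ≤
      K * ENNReal.ofReal (p ^ p * (1 - p) ^ (1 - p)) * (∫⁻ z in Ioi (0 : ℝ), G z) ^ P := by
  classical
  have hsum0 : 0 ≤ ∑ i ∈ s, w i := Finset.sum_nonneg hw
  have hP0 : 0 < P := by rw [hP]; linarith
  have h1p : 0 < 1 - p := by linarith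
  have hmain := pl_half (ι := Option ι) (Finset.insertNone s)
    (fun o => o.elim (p / P) (fun i => w i / P))
    (by
      intro o ho
      cases o with
      | none => exact div_nonneg hp.le hP0.le
      | some i => exact div_nonneg (hw i (by simpa using ho)) hP0.le)
    (by
      rw [Finset.sum_insertNone]
      simp only [Option.elim]
      rw [← Finset.sum_div, ← add_div, ← hP, div_self hP0.ne'])
    (fun o => o.elim (fun t => a (p * t) ^ (1 / p)) f)
    (fun z => K ^ (1 / P) * G z)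
    (by
      intro o ho
      cases o with
      | none => exact (ha.comp (measurable_const_mul p)).pow_const _
      | some i => exact hf i (by simpa using ho))
    (hG.const_mul _)
    (by
      intro x hx
      rw [Finset.prod_insertNone, Finset.sum_insertNone]
      simp only [Option.elim]
      have h1 := H (p * x none) (fun i => x (some i)) (mul_pos hp (hx none)) (fun i => hx (some i))
      have h2 := ENNReal.rpow_le_rpow h1 (z := 1 / P) (by positivity)
      rw [ENNReal.mul_rpow_of_nonneg _ _ (by positivity),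
        ENNReal.mul_rpow_of_nonneg _ _ (by positivity), ← ENNReal.rpow_mul,
        mul_one_div_cancel hP0.ne', ENNReal.rpow_one,
        ← ENNReal.prod_rpow_of_nonneg (by positivity)] at h2
      refine le_trans (le_of_eq ?_) (h2.trans (le_of_eq ?_))
      · rw [← ENNReal.rpow_mul]
        congr 1
        · congr 1; field_simp
        · refine Finset.prod_congr rfl fun i hi => ?_
          rw [← ENNReal.rpow_mul]
          congr 1; ring
      · congr 2
        rw [add_div, Finset.sum_div]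
        congr 1
        · ring
        · exact Finset.sum_congr rfl fun i hi => by ring)
  rw [Finset.prod_insertNone] at hmain
  simp only [Option.elim] at hmain
  rw [lintegral_const_mul _ hG] at hmain
  have h3 := ENNReal.rpow_le_rpow hmain (z := P) hP0.le
  rw [ENNReal.mul_rpow_of_nonneg _ _ hP0.le, ENNReal.mul_rpow_of_nonneg _ _ hP0.le,
    ← ENNReal.rpow_mul, ← ENNReal.rpow_mul, div_mul_cancel₀ _ hP0.ne',
    div_mul_cancel₀ _ hP0.ne', ENNReal.rpow_one, ← ENNReal.prod_rpow_of_nonneg hP0.le] at h3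
  have h4 : ∏ i ∈ s, ((∫⁻ y in Ioi (0 : ℝ), f i y) ^ (w i / P)) ^ P =
      ∏ i ∈ s, (∫⁻ y in Ioi (0 : ℝ), f i y) ^ w i := by
    refine Finset.prod_congr rfl fun i hi => ?_
    rw [← ENNReal.rpow_mul, div_mul_cancel₀ _ hP0.ne']
  rw [h4, scale_Ioi p hp (fun t => a t ^ (1 / p)) (ha.pow_const _)] at h3
  have h5 := holder_exp p hp hp1 a ha
  set I := ∫⁻ t in Ioi (0 : ℝ), a t ^ (1 / p) with hI
  set Q := ∏ i ∈ s, (∫⁻ y in Ioi (0 : ℝ), f i y) ^ w i with hQ
  have hpp : ENNReal.ofReal (p ^ p) * ENNReal.ofReal p⁻¹ ^ p = 1 := by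
    rw [ENNReal.ofReal_rpow_of_pos (inv_pos.2 hp), ← ENNReal.ofReal_mul (by positivity),
      Real.inv_rpow hp.le, mul_inv_cancel₀ (by positivity), ENNReal.ofReal_one]
  calc (∫⁻ t in Ioi (0 : ℝ), ENNReal.ofReal (Real.exp (-t)) * a t) * Q
      ≤ ENNReal.ofReal ((1 - p) ^ (1 - p)) * I ^ p * Q := by gcongr
    _ = ENNReal.ofReal ((1 - p) ^ (1 - p)) *
        (ENNReal.ofReal (p ^ p) * ((ENNReal.ofReal p⁻¹ * I) ^ p * Q)) := by
        rw [ENNReal.mul_rpow_of_nonneg _ _ hp.le]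
        calc ENNReal.ofReal ((1 - p) ^ (1 - p)) * I ^ p * Q
            = ENNReal.ofReal ((1 - p) ^ (1 - p)) *
              ((ENNReal.ofReal (p ^ p) * ENNReal.ofReal p⁻¹ ^ p) * (I ^ p * Q)) := by
              rw [hpp]; ring
          _ = _ := by ring
    _ ≤ ENNReal.ofReal ((1 - p) ^ (1 - p)) *
        (ENNReal.ofReal (p ^ p) * (K * (∫⁻ z in Ioi (0 : ℝ), G z) ^ P)) := by gcongr
    _ = K * ENNReal.ofReal (p ^ p * (1 - p) ^ (1 - p)) * (∫⁻ z in Ioi (0 : ℝ), G z) ^ P := by
        rw [ENNReal.ofReal_mul (by positivity)]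
        ring

end Pool.Agent.TH218.MQ
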