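import Mathlib
import Pool.Agent.TH218.MQ.Step

set_option autoImplicit false
open MeasureTheory Set Filter Topology
open scoped ENNReal

namespace Pool.Agent.TH218.MQ

variable {k : ℕ}

/-- Lebesgue measure on the positive half line in every coordinate -/
noncomputable def hl (k : ℕ) : Fin k → Measure ℝ := fun _ => volume.restrict (Ioi (0 : ℝ))

noncomputable instance (k : ℕ) (i : Fin k) : SigmaFinite (hl k i) := by
  unfold hl; infer_instance

/-- the first `m` coordinates -/
def fs (k m : ℕ) : Finset (Fin k) := Finset.univ.filter fun i => i.val < m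

/-- the coordinates from `j` on -/
def ls (k j : ℕ) : Finset (Fin k) := Finset.univ.filter fun i => j ≤ i.val

lemma mem_fs {m : ℕ} {i : Fin k} : i ∈ fs k m ↔ i.val < m := by simp [fs]
lemma mem_ls {m : ℕ} {i : Fin k} : i ∈ ls k m ↔ m ≤ i.val := by simp [ls]

/-- restriction to the first `m` coordinates, zero elsewhere -/
def cut (m : ℕ) (y : Fin k → ℝ) : Fin k → ℝ := fun i => if i.val < m then y i else 0

lemma ls_insert {j : ℕ} (hj : j < k) : ls k j = insert ⟨j, hj⟩ (ls k (j + 1)) := by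
  ext i
  simp only [mem_ls, Finset.mem_insert, Fin.ext_iff]
  omega

lemma notMem_ls {j : ℕ} (hj : j < k) : (⟨j, hj⟩ : Fin k) ∉ ls k (j + 1) := by
  simp [mem_ls]

lemma inter_insert {j m : ℕ} (hj : j < k) (hjm : j < m) :
    ls k j ∩ fs k m = insert ⟨j, hj⟩ (ls k (j + 1) ∩ fs k m) := by
  ext i
  simp only [mem_ls, mem_fs, Finset.mem_insert, Finset.mem_inter, Fin.ext_iff]
  omega

lemma inter_eq {j m : ℕ} (hjm : m ≤ j) : ls k j ∩ fs k m = ls k (j + 1) ∩ fs k m := by
  ext i
  simp only [mem_ls, mem_fs, Finset.mem_inter]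
  omega

lemma cut_update_lt {m : ℕ} (J : Fin k) (h : J.val < m) (y : Fin k → ℝ) (s : ℝ) :
    cut m (Function.update y J s) = Function.update (cut m y) J s := by
  funext i
  by_cases hi : i = J
  · subst hi; simp [cut, h]
  · simp [cut, hi]

lemma cut_update_ge {m : ℕ} (J : Fin k) (h : m ≤ J.val) (y : Fin k → ℝ) (s : ℝ) :
    cut m (Function.update y J s) = cut m y := by
  funext i
  by_cases hi : i = J
  · subst hi; simp [cut, not_lt.2 h]
  · simp [cut, hi]

/-- the combined point -/
noncomputable def zz (k : ℕ) (w : ℕ → ℝ) (P : ℝ) (x : Fin k → ℝ) (y : ℕ → Fin k → ℝ) : Fin k → ℝ :=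
  fun i => (x i + ∑ m ∈ Finset.Ico 1 k, w m * cut m (y m) i) / P

lemma zz_update {w : ℕ → ℝ} {P : ℝ} {j : ℕ} (hj : j < k) (x : Fin k → ℝ) (y : ℕ → Fin k → ℝ)
    (t : ℝ) (s : ℕ → ℝ) :
    zz k w P (Function.update x ⟨j, hj⟩ t) (fun m => Function.update (y m) ⟨j, hj⟩ (s m)) =
      Function.update (zz k w P x y) ⟨j, hj⟩ ((t + ∑ m ∈ Finset.Ico (j + 1) k, w m * s m) / P) := by
  funext i
  by_cases hi : i = ⟨j, hj⟩
  · subst hi
    simp only [zz, Function.update_self]
    congr 2
    rw [← Finset.sum_Ico_consecutive _ (show 1 ≤ j + 1 by omega) (show j + 1 ≤ k by omega)]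
    have e1 : ∑ m ∈ Finset.Ico 1 (j + 1), w m * cut m (Function.update (y m) ⟨j, hj⟩ (s m)) ⟨j, hj⟩
        = 0 := by
      refine Finset.sum_eq_zero fun m hm => ?_
      rw [Finset.mem_Ico] at hm
      simp [cut, show ¬ j < m by omega]
    rw [e1, zero_add]
    refine Finset.sum_congr rfl fun m hm => ?_
    rw [Finset.mem_Ico] at hm
    simp [cut, show j < m by omega]
  · simp only [zz, Function.update_of_ne hi]
    congr 2
    refine Finset.sum_congr rfl fun m _ => ?_
    simp [cut, hi]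

lemma meas_upd (T : Finset (Fin k)) (f : (Fin k → ℝ) → ℝ≥0∞) (hf : Measurable f)
    (x : Fin k → ℝ) (J : Fin k) :
    Measurable fun t : ℝ => (∫⋯∫⁻_T, f ∂(hl k)) (Function.update x J t) :=
  (hf.lmarginal (hl k)).comp (measurable_update x)

/-- the entropy factor `p^p (1-p)^(1-p)` -/
noncomputable def hh (p : ℝ) : ℝ := p ^ p * (1 - p) ^ (1 - p)

theorem ind (p : ℕ → ℝ) (hp0 : ∀ i < k, 0 < p i) (hp1 : ∀ i < k, p i < 1)
    (hmono : ∀ i, i + 1 < k → p i ≤ p (i + 1))
    (F0 G : (Fin k → ℝ) → ℝ≥0∞) (F : ℕ → (Fin k → ℝ) → ℝ≥0∞)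
    (hF0 : Measurable F0) (hG : Measurable G) (hF : ∀ m, Measurable (F m))
    (H : ∀ (x : Fin k → ℝ) (y : ℕ → Fin k → ℝ), (∀ i, 0 < x i) → (∀ m i, 0 < y m i) →
      F0 x * ∏ m ∈ Finset.Ico 1 k, F m (cut m (y m)) ^ (p m - p (m - 1)) ≤
        G (zz k (fun m => p m - p (m - 1)) (p (k - 1)) x y) ^ p (k - 1)) :
    ∀ d j : ℕ, j + d = k → ∀ (x : Fin k → ℝ) (y : ℕ → Fin k → ℝ), (∀ i, 0 < x i) →
      (∀ m i, 0 < y m i) →
      ENNReal.ofReal (Real.exp (∑ i ∈ fs k j, x i)) *
          (∫⋯∫⁻_(ls k j), (fun x => ENNReal.ofReal (Real.exp (-∑ i, x i)) * F0 x) ∂(hl k)) x *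
          ∏ m ∈ Finset.Ico 1 k,
            (∫⋯∫⁻_(ls k j ∩ fs k m), (F m) ∂(hl k)) (cut m (y m)) ^ (p m - p (m - 1)) ≤
        (∏ i ∈ Finset.Ico j k, ENNReal.ofReal (hh (p i))) *
          (∫⋯∫⁻_(ls k j), G ∂(hl k)) (zz k (fun m => p m - p (m - 1)) (p (k - 1)) x y) ^
            p (k - 1) := by
  intro d
  induction d with
  | zero =>
    intro j hj x y hx hy
    have hjk : j = k := by omega
    subst hjk
    have e1 : ls j j = ∅ := by
      ext i; simp [mem_ls]
    have e2 : fs j j = Finset.univ := by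
      ext i; simp [mem_fs]
    have e3 : ∀ m, ls j j ∩ fs j m = ∅ := by
      intro m; rw [e1]; simp
    simp only [e3]
    rw [e1, e2]
    simp only [lmarginal_empty, Finset.Ico_self, Finset.prod_empty, one_mul]
    rw [← mul_assoc, ← ENNReal.ofReal_mul (Real.exp_pos _).le, ← Real.exp_add, add_neg_cancel,
      Real.exp_zero, ENNReal.ofReal_one, one_mul]
    exact H x y hx hy
  | succ d ih =>
    intro j hjd x y hx hy
    have hj : j < k := by omega
    set J : Fin k := ⟨j, hj⟩ with hJ
    set w : ℕ → ℝ := fun m => p m - p (m - 1) with hw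
    set P : ℝ := p (k - 1) with hPdef
    set E : (Fin k → ℝ) → ℝ≥0∞ := fun x => ENNReal.ofReal (Real.exp (-∑ i, x i)) * F0 x with hE
    have hEm : Measurable E := by
      refine Measurable.mul ?_ hF0
      fun_prop
    have hwn : ∀ m ∈ Finset.Ico (j + 1) k, 0 ≤ w m := by
      intro m hm
      rw [Finset.mem_Ico] at hm
      have := hmono (m - 1) (by omega)
      rw [show m - 1 + 1 = m by omega] at this
      simp only [hw]; linarith
    have hPsum : P = p j + ∑ m ∈ Finset.Ico (j + 1) k, w m := by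
      have key : ∀ n, j + 1 ≤ n → ∑ m ∈ Finset.Ico (j + 1) n, w m = p (n - 1) - p j := by
        intro n hn
        induction n, hn using Nat.le_induction with
        | base => simp
        | succ n hn ih2 =>
          rw [Finset.sum_Ico_succ_top (by omega), ih2]
          simp only [hw, Nat.add_sub_cancel]
          ring
      rw [key k (by omega)]; ring
    have hc : ∀ m ∈ Finset.Ico 1 (j + 1),
        (∫⋯∫⁻_(ls k j ∩ fs k m), (F m) ∂(hl k)) (cut m (y m)) =
          (∫⋯∫⁻_(ls k (j + 1) ∩ fs k m), (F m) ∂(hl k)) (cut m (y m)) := by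
      intro m hm
      rw [Finset.mem_Ico] at hm
      rw [inter_eq (show m ≤ j by omega)]
    set c : ℝ≥0∞ := ∏ m ∈ Finset.Ico 1 (j + 1),
      (∫⋯∫⁻_(ls k (j + 1) ∩ fs k m), (F m) ∂(hl k)) (cut m (y m)) ^ w m with hcdef
    have hst := step1 (Finset.Ico (j + 1) k) w hwn (p j) (hp0 j hj) (hp1 j hj) P hPsum
      (fun t => c * (ENNReal.ofReal (Real.exp (∑ i ∈ fs k (j + 1), (Function.update x J t) i)) *
        (∫⋯∫⁻_(ls k (j + 1)), E ∂(hl k)) (Function.update x J t)))
      (by
        refine Measurable.const_mul (Measurable.mul ?_ (meas_upd _ _ hEm _ _)) _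
        refine ENNReal.measurable_ofReal.comp (Real.measurable_exp.comp ?_)
        refine Finset.measurable_sum _ fun i _ => ?_
        exact (measurable_pi_apply i).comp (measurable_update x))
      (fun m s => (∫⋯∫⁻_(ls k (j + 1) ∩ fs k m), (F m) ∂(hl k))
        (Function.update (cut m (y m)) J s))
      (fun m _ => meas_upd _ _ (hF m) _ _)
      (fun z => (∫⋯∫⁻_(ls k (j + 1)), G ∂(hl k)) (Function.update (zz k w P x y) J z))
      (meas_upd _ _ hG _ _)
      (∏ i ∈ Finset.Ico (j + 1) k, ENNReal.ofReal (hh (p i)))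
      (by
        intro t s ht hs
        have h1 := ih (j + 1) (by omega) (Function.update x J t)
          (fun m => Function.update (y m) J (s m))
          (fun i => by
            by_cases hi : i = J
            · subst hi; simpa using ht
            · simpa [hi] using hx i)
          (fun m i => by
            by_cases hi : i = J
            · subst hi; simpa using hs m
            · simpa [hi] using hy m i)
        rw [zz_update hj] at h1
        refine le_trans (le_of_eq ?_) h1
        rw [← Finset.prod_Ico_consecutive _ (show 1 ≤ j + 1 by omega) (show j + 1 ≤ k by omega)]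
        have e1 : ∏ m ∈ Finset.Ico 1 (j + 1), (∫⋯∫⁻_(ls k (j + 1) ∩ fs k m), (F m) ∂(hl k))
            (cut m (Function.update (y m) J (s m))) ^ w m = c := by
          rw [hcdef]
          refine Finset.prod_congr rfl fun m hm => ?_
          rw [Finset.mem_Ico] at hm
          rw [cut_update_ge J (show m ≤ j by omega)]
        have e2 : ∏ m ∈ Finset.Ico (j + 1) k, (∫⋯∫⁻_(ls k (j + 1) ∩ fs k m), (F m) ∂(hl k))
            (cut m (Function.update (y m) J (s m))) ^ w m =
            ∏ m ∈ Finset.Ico (j + 1) k, (∫⋯∫⁻_(ls k (j + 1) ∩ fs k m), (F m) ∂(hl k))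
              (Function.update (cut m (y m)) J (s m)) ^ w m := by
          refine Finset.prod_congr rfl fun m hm => ?_
          rw [Finset.mem_Ico] at hm
          rw [cut_update_lt J (show j < m by omega)]
        rw [e1, e2]
        ring)
    -- identify the integrals
    have i1 : ∫⁻ z in Ioi (0 : ℝ), (∫⋯∫⁻_(ls k (j + 1)), G ∂(hl k))
        (Function.update (zz k w P x y) J z) = (∫⋯∫⁻_(ls k j), G ∂(hl k)) (zz k w P x y) := by
      rw [ls_insert hj, lmarginal_insert G hG (notMem_ls hj)]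
      rfl
    have i2 : ∀ m ∈ Finset.Ico (j + 1) k, ∫⁻ s in Ioi (0 : ℝ),
        (∫⋯∫⁻_(ls k (j + 1) ∩ fs k m), (F m) ∂(hl k)) (Function.update (cut m (y m)) J s) =
        (∫⋯∫⁻_(ls k j ∩ fs k m), (F m) ∂(hl k)) (cut m (y m)) := by
      intro m hm
      rw [Finset.mem_Ico] at hm
      rw [inter_insert hj (show j < m by omega), lmarginal_insert (F m) (hF m)]
      · rfl
      · intro h
        exact notMem_ls hj (Finset.mem_inter.1 h).1
    have i3 : ∫⁻ t in Ioi (0 : ℝ), ENNReal.ofReal (Real.exp (-t)) *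
        (c * (ENNReal.ofReal (Real.exp (∑ i ∈ fs k (j + 1), (Function.update x J t) i)) *
        (∫⋯∫⁻_(ls k (j + 1)), E ∂(hl k)) (Function.update x J t))) =
        c * (ENNReal.ofReal (Real.exp (∑ i ∈ fs k j, x i)) *
          (∫⋯∫⁻_(ls k j), E ∂(hl k)) x) := by
      have e1 : ∀ t : ℝ, ENNReal.ofReal (Real.exp (-t)) *
        (c * (ENNReal.ofReal (Real.exp (∑ i ∈ fs k (j + 1), (Function.update x J t) i)) *
        (∫⋯∫⁻_(ls k (j + 1)), E ∂(hl k)) (Function.update x J t))) =
        (c * ENNReal.ofReal (Real.exp (∑ i ∈ fs k j, x i))) *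
          (∫⋯∫⁻_(ls k (j + 1)), E ∂(hl k)) (Function.update x J t) := by
        intro t
        have e2 : fs k (j + 1) = insert J (fs k j) := by
          ext i
          simp only [mem_fs, Finset.mem_insert, hJ, Fin.ext_iff]
          omega
        have e3 : J ∉ fs k j := by simp [mem_fs, hJ]
        have e4 : ∑ i ∈ fs k (j + 1), (Function.update x J t) i = t + ∑ i ∈ fs k j, x i := by
          rw [e2, Finset.sum_insert e3, Function.update_self]
          congr 1
          refine Finset.sum_congr rfl fun i hi => ?_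
          rw [Function.update_of_ne]
          rintro rfl
          exact e3 hi
        have e5 : ENNReal.ofReal (Real.exp (-t)) *
            ENNReal.ofReal (Real.exp (t + ∑ i ∈ fs k j, x i)) =
            ENNReal.ofReal (Real.exp (∑ i ∈ fs k j, x i)) := by
          rw [← ENNReal.ofReal_mul (Real.exp_pos _).le, ← Real.exp_add]
          congr 2; ring
        rw [e4, ← e5]
        ring
      simp only [e1]
      rw [lintegral_const_mul _ (meas_upd _ _ hEm _ _), ls_insert hj,
        lmarginal_insert E hEm (notMem_ls hj), mul_assoc]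
      rfl
    rw [i1, i3, Finset.prod_congr rfl fun m hm => by rw [i2 m hm]] at hst
    rw [← Finset.prod_Ico_consecutive _ (show 1 ≤ j + 1 by omega) (show j + 1 ≤ k by omega),
      Finset.prod_congr rfl fun m hm => by rw [hc m hm],
      Finset.prod_eq_prod_Ico_succ_bot hj fun i => ENNReal.ofReal (hh (p i))]
    refine le_trans (le_of_eq ?_) (hst.trans (le_of_eq ?_))
    · rw [hcdef]
      simp only [hw]
      ring
    · simp only [hh]; ring

/-- the inequality (Q') for general densities -/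
theorem general (p : ℕ → ℝ) (hp0 : ∀ i < k, 0 < p i) (hp1 : ∀ i < k, p i < 1)
    (hmono : ∀ i, i + 1 < k → p i ≤ p (i + 1))
    (F0 G : (Fin k → ℝ) → ℝ≥0∞) (F : ℕ → (Fin k → ℝ) → ℝ≥0∞)
    (hF0 : Measurable F0) (hG : Measurable G) (hF : ∀ m, Measurable (F m))
    (H : ∀ (x : Fin k → ℝ) (y : ℕ → Fin k → ℝ), (∀ i, 0 < x i) → (∀ m i, 0 < y m i) →
      F0 x * ∏ m ∈ Finset.Ico 1 k, F m (cut m (y m)) ^ (p m - p (m - 1)) ≤
        G (zz k (fun m => p m - p (m - 1)) (p (k - 1)) x y) ^ p (k - 1)) :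
    (∫⁻ x, ENNReal.ofReal (Real.exp (-∑ i, x i)) * F0 x ∂(Measure.pi (hl k))) *
        ∏ m ∈ Finset.Ico 1 k, (∫⋯∫⁻_(fs k m), (F m) ∂(hl k)) 0 ^ (p m - p (m - 1)) ≤
      ENNReal.ofReal (∏ i ∈ Finset.range k, hh (p i)) *
        (∫⁻ x, G x ∂(Measure.pi (hl k))) ^ p (k - 1) := by
  have h1 := ind p hp0 hp1 hmono F0 G F hF0 hG hF H k 0 (by omega) (fun _ => 1)
    (fun _ _ => 1) (fun _ => one_pos) (fun _ _ => one_pos)
  have e1 : ls k 0 = Finset.univ := by ext i; simp [mem_ls]
  have e2 : fs k 0 = ∅ := by ext i; simp [mem_fs]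
  rw [e1, e2] at h1
  simp only [Finset.univ_inter, lmarginal_univ, Finset.sum_empty, Real.exp_zero,
    ENNReal.ofReal_one, one_mul, Nat.Ico_zero_eq_range] at h1
  refine le_trans (le_of_eq ?_) (h1.trans (le_of_eq ?_))
  · congr 1
    refine Finset.prod_congr rfl fun m _ => ?_
    congr 1
    refine lmarginal_congr _ _ fun i hi => ?_
    rw [mem_fs] at hi
    simp [cut, hi]
  · rw [ENNReal.ofReal_prod_of_nonneg]
    intro i hi
    rw [Finset.mem_range] at hi
    have a1 := hp0 i hi
    have a2 := hp1 i hi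
    exact mul_nonneg (Real.rpow_nonneg a1.le _) (Real.rpow_nonneg (by linarith) _)

end Pool.Agent.TH218.MQ
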