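import Mathlib
import Pool.Agent.TH218.MQ.Ind

set_option autoImplicit false
open MeasureTheory Set Filter Topology
open scoped ENNReal

namespace Pool.Agent.TH218.MQ

variable {k : ℕ}

/-- `v_m = ∫ e^{-φ}` over the first `m` coordinates (positive half lines), the others being `0` -/
noncomputable def vv (φ : (Fin k → ℝ) → ℝ) (m : ℕ) : ℝ≥0∞ :=
  (∫⋯∫⁻_(fs k m), (fun x => ENNReal.ofReal (Real.exp (-φ x))) ∂(hl k)) 0

theorem vv_top (φ : (Fin k → ℝ) → ℝ) :
    vv φ k = ∫⁻ x, ENNReal.ofReal (Real.exp (-φ x)) ∂(Measure.pi (hl k)) := by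
  have : fs k k = Finset.univ := by ext i; simp [mem_fs]
  rw [vv, this, lmarginal_univ]

theorem vv_zero (φ : (Fin k → ℝ) → ℝ) : vv φ 0 = ENNReal.ofReal (Real.exp (-φ 0)) := by
  have : fs k 0 = ∅ := by ext i; simp [mem_fs]
  rw [vv, this, lmarginal_empty]

lemma cut_nonneg (m : ℕ) (y : Fin k → ℝ) (hy : ∀ i, 0 < y i) : ∀ i, 0 ≤ cut m y i := by
  intro i
  unfold cut
  split_ifs
  · exact (hy i).le
  · exact le_rfl

/-- **(Q')**: for `φ` measurable and sublinear on the orthant and `0 < p_0 ≤ … ≤ p_{k-1} < 1`,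
`∫ e^{-|x|-φ} · ∏_{1≤m<k} v_m^{p_m-p_{m-1}} ≤ ∏ p_i^{p_i}(1-p_i)^{1-p_i} · v_k^{p_{k-1}}`. -/
theorem qprime (hk : 0 < k) (φ : (Fin k → ℝ) → ℝ) (hφ : Measurable φ)
    (hadd : ∀ x y : Fin k → ℝ, (∀ i, 0 ≤ x i) → (∀ i, 0 ≤ y i) → φ (x + y) ≤ φ x + φ y)
    (hhom : ∀ (c : ℝ) (x : Fin k → ℝ), 0 ≤ c → (∀ i, 0 ≤ x i) → φ (c • x) = c * φ x)
    (p : ℕ → ℝ) (hp0 : ∀ i < k, 0 < p i) (hp1 : ∀ i < k, p i < 1)
    (hmono : ∀ i, i + 1 < k → p i ≤ p (i + 1)) :
    (∫⁻ x, ENNReal.ofReal (Real.exp (-(∑ i, x i) - φ x)) ∂(Measure.pi (hl k))) *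
        ∏ m ∈ Finset.Ico 1 k, vv φ m ^ (p m - p (m - 1)) ≤
      ENNReal.ofReal (∏ i ∈ Finset.range k, hh (p i)) * vv φ k ^ p (k - 1) := by
  have hP : 0 < p (k - 1) := hp0 _ (by omega)
  have hsum : ∀ (s : Finset ℕ) (w : ℕ → ℝ) (y : ℕ → Fin k → ℝ), (∀ m ∈ s, 0 ≤ w m) →
      (∀ m ∈ s, ∀ i, 0 ≤ y m i) → φ (∑ m ∈ s, w m • y m) ≤ ∑ m ∈ s, w m * φ (y m) := by
    intro s w y hw hy
    induction s using Finset.induction_on with
    | empty =>
      have := hhom 0 0 le_rfl (fun _ => le_rfl)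
      simp only [zero_smul, zero_mul] at this
      simp [this]
    | insert a s ha ih =>
      rw [Finset.sum_insert ha, Finset.sum_insert ha]
      have h1 := ih (fun m hm => hw m (Finset.mem_insert_of_mem hm))
        (fun m hm => hy m (Finset.mem_insert_of_mem hm))
      have h2 := hadd (w a • y a) (∑ m ∈ s, w m • y m)
        (fun i => mul_nonneg (hw a (Finset.mem_insert_self a s)) (hy a (Finset.mem_insert_self a s) i))
        (fun i => by
          rw [Finset.sum_apply]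
          exact Finset.sum_nonneg fun m hm => mul_nonneg (hw m (Finset.mem_insert_of_mem hm))
            (hy m (Finset.mem_insert_of_mem hm) i))
      rw [hhom _ _ (hw a (Finset.mem_insert_self a s)) (hy a (Finset.mem_insert_self a s))] at h2
      linarith
  have hfm : Measurable fun x : Fin k → ℝ => ENNReal.ofReal (Real.exp (-φ x)) := by fun_prop
  have h := general (k := k) p hp0 hp1 hmono (fun x => ENNReal.ofReal (Real.exp (-φ x)))
    (fun x => ENNReal.ofReal (Real.exp (-φ x))) (fun _ x => ENNReal.ofReal (Real.exp (-φ x)))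
    hfm hfm (fun _ => hfm) (by
      intro x y hx hy
      set w : ℕ → ℝ := fun m => p m - p (m - 1) with hw
      have hwn : ∀ m ∈ Finset.Ico 1 k, 0 ≤ w m := by
        intro m hm
        rw [Finset.mem_Ico] at hm
        have := hmono (m - 1) (by omega)
        rw [show m - 1 + 1 = m by omega] at this
        simp only [hw]; linarith
      have e1 : ∏ m ∈ Finset.Ico 1 k, ENNReal.ofReal (Real.exp (-φ (cut m (y m)))) ^ w m =
          ENNReal.ofReal (Real.exp (-∑ m ∈ Finset.Ico 1 k, w m * φ (cut m (y m)))) := by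
        rw [← Finset.sum_neg_distrib, Real.exp_sum, ENNReal.ofReal_prod_of_nonneg
          fun _ _ => (Real.exp_pos _).le]
        refine Finset.prod_congr rfl fun m hm => ?_
        rw [ENNReal.ofReal_rpow_of_pos (Real.exp_pos _), ← Real.exp_mul]
        congr 2; ring
      have e2 : zz k w (p (k - 1)) x y =
          (p (k - 1))⁻¹ • (x + ∑ m ∈ Finset.Ico 1 k, w m • cut m (y m)) := by
        funext i
        simp only [zz, Pi.smul_apply, Pi.add_apply, Finset.sum_apply, smul_eq_mul]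
        rw [div_eq_inv_mul]
      have hcn : ∀ m ∈ Finset.Ico 1 k, ∀ i, 0 ≤ cut m (y m) i := fun m _ =>
        cut_nonneg m (y m) (hy m)
      have hsn : ∀ i, 0 ≤ (∑ m ∈ Finset.Ico 1 k, w m • cut m (y m)) i := by
        intro i
        rw [Finset.sum_apply]
        exact Finset.sum_nonneg fun m hm => mul_nonneg (hwn m hm) (hcn m hm i)
      have h3 : φ (zz k w (p (k - 1)) x y) * p (k - 1) ≤
          φ x + ∑ m ∈ Finset.Ico 1 k, w m * φ (cut m (y m)) := by
        rw [e2, hhom (p (k - 1))⁻¹ (x + ∑ m ∈ Finset.Ico 1 k, w m • cut m (y m)) (inv_pos.2 hP).le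
          (fun i => add_nonneg (hx i).le (hsn i))]
        have h4 := hadd x (∑ m ∈ Finset.Ico 1 k, w m • cut m (y m)) (fun i => (hx i).le) hsn
        have h5 := hsum (Finset.Ico 1 k) w (fun m => cut m (y m)) hwn hcn
        have h6 : (p (k - 1))⁻¹ * φ (x + ∑ m ∈ Finset.Ico 1 k, w m • cut m (y m)) * p (k - 1) =
            φ (x + ∑ m ∈ Finset.Ico 1 k, w m • cut m (y m)) := by
          field_simp
        rw [h6]; linarith
      rw [e1, ← ENNReal.ofReal_mul (Real.exp_pos _).le, ← Real.exp_add,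
        ENNReal.ofReal_rpow_of_pos (Real.exp_pos _), ← Real.exp_mul]
      refine ENNReal.ofReal_le_ofReal (Real.exp_le_exp.2 ?_)
      linarith)
  rw [vv_top]
  refine le_trans (le_of_eq ?_) h
  congr 1
  refine lintegral_congr fun x => ?_
  rw [← ENNReal.ofReal_mul (Real.exp_pos _).le, ← Real.exp_add, sub_eq_add_neg]

end Pool.Agent.TH218.MQ
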